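import Pool.Agent.MGS.All

/-!
# MP_af99bf_an: axisymmetry of the minimizers of the lowest magnetic Dirichlet eigenvalue in `ℝ³`

Full positive answer to Q1: for every field strength `B > 0`, every minimizer is axisymmetric about
the `z`-axis up to a set of `H¹` capacity zero.  The definitions are in `Pool/Agent/MGS/Defs.lean`.
-/

set_option autoImplicit false

namespace Pool.Agent.Results.MP_af99bf_an.Axisymmetry

/-- For every `B > 0` every minimizer for field strength `B` is, after a translation, equal to an
open set invariant under all rotations about the `z`-axis up to a set of `H¹` capacity zero. -/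
theorem result : ∀ (B : ℝ) (Ω : Set MGS.X), 0 < B → MGS.IsMinimizer B Ω → MGS.AxiSym Ω :=
  fun B Ω hB h => MGS.main_axisym B Ω hB h

end Pool.Agent.Results.MP_af99bf_an.Axisymmetry
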